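import Pool.Agent.Helper58.GW.Defs

set_option autoImplicit false

namespace Pool.Agent.Helper58.GW

open PowerSeries

theorem nn_zero : nn 0 = 1 := by
  simp [nn]

theorem nn_pos (j : ℕ) : 0 < nn j := by
  unfold nn
  positivity

theorem nn_succ (j : ℕ) : nn (j + 1) = nn j * 8 ^ (2 * j + 1) := by
  unfold nn
  rw [← pow_add]
  congr 1
  ring

theorem nn_big (j : ℕ) : 2 ^ (j + 2) * (j + 1) * nn j ≤ nn (j + 1) := by
  rw [nn_succ, mul_comm (nn j)]
  apply Nat.mul_le_mul_right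
  have h1 : j + 1 ≤ 2 ^ j := Nat.lt_two_pow_self
  calc 2 ^ (j + 2) * (j + 1) ≤ 2 ^ (j + 2) * 2 ^ j := Nat.mul_le_mul_left _ h1
    _ = 2 ^ (2 * j + 2) := by rw [← pow_add]; congr 1; ring
    _ ≤ 2 ^ (3 * (2 * j + 1)) := Nat.pow_le_pow_right (by norm_num) (by omega)
    _ = 8 ^ (2 * j + 1) := by rw [pow_mul]; norm_num

theorem nn_lt (j : ℕ) : j < nn j := by
  unfold nn
  have h1 : j ^ 2 < 8 ^ (j ^ 2) := Nat.lt_pow_self (by norm_num)
  have h2 : j ≤ j ^ 2 := Nat.le_self_pow (by norm_num) j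
  omega

theorem nn_mono {i j : ℕ} (h : i ≤ j) : nn i ≤ nn j := by
  unfold nn
  exact Nat.pow_le_pow_right (by norm_num) (Nat.pow_le_pow_left h 2)

theorem nn_two (j : ℕ) : 8 * nn j ≤ nn (j + 1) := by
  rw [nn_succ, mul_comm (nn j)]
  apply Nat.mul_le_mul_right
  calc 8 = 8 ^ 1 := by norm_num
    _ ≤ 8 ^ (2 * j + 1) := Nat.pow_le_pow_right (by norm_num) (by omega)

end Pool.Agent.Helper58.GW
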