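import Pool.Agent.Helper58.GW.A1

set_option autoImplicit false

namespace Pool.Agent.Helper58.GW

open PowerSeries

theorem h833_w_succ (j : ℕ) : w (j + 1) = (w j / (4 * ((j : ℝ) + 2))) ^ (2 * nn (j + 1)) := rfl

theorem w_pos (j : ℕ) : 0 < w j := by
  induction j with
  | zero => exact one_pos
  | succ j ih => rw [h833_w_succ]; positivity

theorem w_le_one (j : ℕ) : w j ≤ 1 := by
  induction j with
  | zero => exact le_rfl
  | succ j ih =>
    rw [h833_w_succ]
    have h0 := w_pos j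
    apply pow_le_one₀ (by positivity)
    rw [div_le_one (by positivity)]
    have : (0:ℝ) ≤ j := by positivity
    linarith

theorem w_succ_le_pow (j : ℕ) : w (j + 1) ≤ (w j) ^ (2 * nn (j + 1)) := by
  rw [h833_w_succ]
  have h0 := w_pos j
  apply pow_le_pow_left₀ (by positivity)
  apply div_le_self h0.le
  have : (0:ℝ) ≤ j := by positivity
  linarith

theorem w_succ_le (j : ℕ) : w (j + 1) ≤ w j := by
  refine (w_succ_le_pow j).trans ?_
  apply pow_le_of_le_one (w_pos j).le (w_le_one j)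
  have := nn_pos (j + 1)
  omega

theorem w_rad (j : ℕ) : w (j + 1) ≤ (1 / (4 * ((j : ℝ) + 2))) ^ (2 * nn (j + 1)) := by
  rw [h833_w_succ]
  have h0 := w_pos j
  have h1 := w_le_one j
  apply pow_le_pow_left₀ (by positivity)
  apply div_le_div_of_nonneg_right h1 (by positivity)

theorem w_small (j : ℕ) :
    w (j + 1) ≤ ep (j + 2) / (2 * ((j : ℝ) + 1)) * (w j) ^ (nn (j + 1) + 1) := by
  have h0 := w_pos j
  have h1 := w_le_one j
  have hN := nn_lt (j + 1)
  have hep : ep (j + 2) = (1 / 2 : ℝ) ^ (j + 1) := rfl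
  have e1 : w (j + 1) = (1 / (4 * ((j : ℝ) + 2))) ^ (2 * nn (j + 1)) * (w j) ^ (2 * nn (j + 1)) := by
    rw [h833_w_succ, ← mul_pow]
    congr 1
    ring
  rw [e1]
  generalize nn (j + 1) = N at hN
  have hj : (0:ℝ) ≤ j := by positivity
  apply mul_le_mul
  · have h2 : (1 / (4 * ((j : ℝ) + 2))) ^ (2 * N) ≤ (1 / (4 * ((j : ℝ) + 2))) ^ (2 * (j + 1)) := by
      apply pow_le_pow_of_le_one (by positivity)
      · rw [div_le_one (by positivity)]; linarith
      · omega
    have h3 : (1 / (4 * ((j : ℝ) + 2))) ^ (2 * (j + 1)) ≤ (1 / 8 : ℝ) ^ (2 * (j + 1)) := by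
      apply pow_le_pow_left₀ (by positivity)
      apply one_div_le_one_div_of_le (by norm_num)
      linarith
    have h4 : (1 / 8 : ℝ) ^ (2 * (j + 1)) = (1 / 2 : ℝ) ^ (j + 1) * (1 / 32 : ℝ) ^ (j + 1) := by
      rw [pow_mul, ← mul_pow]; norm_num
    have h5 : (1 / 32 : ℝ) ^ (j + 1) ≤ 1 / (2 * ((j : ℝ) + 1)) := by
      rw [one_div_pow]
      apply one_div_le_one_div_of_le (by positivity)
      have h6 := one_add_mul_le_pow (show (-2:ℝ) ≤ 31 by norm_num) (j + 1)
      push_cast at h6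
      norm_num at h6
      linarith
    rw [hep]
    calc (1 / (4 * ((j : ℝ) + 2))) ^ (2 * N) ≤ (1 / 8 : ℝ) ^ (2 * (j + 1)) := h2.trans h3
      _ = (1 / 2 : ℝ) ^ (j + 1) * (1 / 32 : ℝ) ^ (j + 1) := h4
      _ ≤ (1 / 2 : ℝ) ^ (j + 1) * (1 / (2 * ((j : ℝ) + 1))) :=
          mul_le_mul_of_nonneg_left h5 (by positivity)
      _ = _ := by ring
  · apply pow_le_pow_of_le_one h0.le h1
    omega
  · positivity
  · rw [hep]; positivity

theorem ep_pos (j : ℕ) : 0 < ep j := by
  cases j with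
  | zero => exact one_pos
  | succ j =>
    show (0:ℝ) < (1 / 2 : ℝ) ^ j
    positivity

theorem ep_le_one (j : ℕ) : ep j ≤ 1 := by
  cases j with
  | zero => exact le_rfl
  | succ j =>
    show (1 / 2 : ℝ) ^ j ≤ 1
    exact pow_le_one₀ (by norm_num) (by norm_num)

theorem c_pos (j : ℕ) : 0 < c j := div_pos (ep_pos j) (w_pos j)

theorem c_mul_w (j : ℕ) : c j * w j = ep j := div_mul_cancel₀ _ (w_pos j).ne'

theorem c_le (i j : ℕ) (h : i ≤ j) : c i ≤ 1 / w j := by
  have ha : Antitone w := antitone_nat_of_succ_le w_succ_le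
  calc c i = ep i / w i := rfl
    _ ≤ 1 / w i := div_le_div_of_nonneg_right (ep_le_one i) (w_pos i).le
    _ ≤ 1 / w j := one_div_le_one_div_of_le (w_pos j) (ha h)

end Pool.Agent.Helper58.GW
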