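import Pool.Agent.Helper58.GW.A2

set_option autoImplicit false

namespace Pool.Agent.Helper58.GW

open PowerSeries

theorem W_pos (j m : ℕ) : 0 < W j m := by
  induction j generalizing m with
  | zero => exact one_pos
  | succ j ih =>
    show 0 < W j (m % nn (j + 1)) * (w (j + 1)) ^ (m / nn (j + 1))
    exact mul_pos (ih _) (pow_pos (w_pos _) _)

theorem W_le_one (j m : ℕ) : W j m ≤ 1 := by
  induction j generalizing m with
  | zero => exact le_rfl
  | succ j ih =>
    show W j (m % nn (j + 1)) * (w (j + 1)) ^ (m / nn (j + 1)) ≤ 1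
    exact mul_le_one₀ (ih _) (pow_pos (w_pos _) _).le (pow_le_one₀ (w_pos _).le (w_le_one _))

theorem W_succ_of_lt (j m : ℕ) (h : m < nn (j + 1)) : W (j + 1) m = W j m := by
  show W j (m % nn (j + 1)) * (w (j + 1)) ^ (m / nn (j + 1)) = W j m
  rw [Nat.mod_eq_of_lt h, Nat.div_eq_of_lt h, pow_zero, mul_one]

theorem W_lower (j m : ℕ) (h : m < nn (j + 1)) : (w j) ^ (nn (j + 1)) ≤ W j m := by
  induction j generalizing m with
  | zero =>
    show (1 : ℝ) ^ (nn (0 + 1)) ≤ 1
    rw [one_pow]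
  | succ j ih =>
    show (w (j + 1)) ^ (nn (j + 1 + 1)) ≤
      W j (m % nn (j + 1)) * (w (j + 1)) ^ (m / nn (j + 1))
    have h1 : w (j + 1) ≤ W j (m % nn (j + 1)) := by
      refine (w_succ_le_pow j).trans (le_trans ?_ (ih _ (Nat.mod_lt _ (nn_pos _))))
      exact pow_le_pow_of_le_one (w_pos j).le (w_le_one j) (by omega)
    have h2 : m / nn (j + 1) + 1 ≤ nn (j + 1 + 1) := by
      have : m / nn (j + 1) ≤ m := Nat.div_le_self _ _
      omega
    calc (w (j + 1)) ^ (nn (j + 1 + 1)) ≤ (w (j + 1)) ^ (m / nn (j + 1) + 1) :=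
          pow_le_pow_of_le_one (w_pos _).le (w_le_one _) h2
      _ = w (j + 1) * (w (j + 1)) ^ (m / nn (j + 1)) := by rw [pow_succ']
      _ ≤ W j (m % nn (j + 1)) * (w (j + 1)) ^ (m / nn (j + 1)) :=
          mul_le_mul_of_nonneg_right h1 (pow_pos (w_pos _) _).le

theorem W_submul (j a b : ℕ) : W j (a + b) ≤ W j a * W j b := by
  induction j generalizing a b with
  | zero =>
    show (1 : ℝ) ≤ 1 * 1
    norm_num
  | succ j ih =>
    show W j ((a + b) % nn (j + 1)) * (w (j + 1)) ^ ((a + b) / nn (j + 1)) ≤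
      (W j (a % nn (j + 1)) * (w (j + 1)) ^ (a / nn (j + 1))) *
      (W j (b % nn (j + 1)) * (w (j + 1)) ^ (b / nn (j + 1)))
    have hN := nn_pos (j + 1)
    have hw := w_pos (j + 1)
    have ha := Nat.mod_lt a hN
    have hb := Nat.mod_lt b hN
    have hpq : 0 ≤ (w (j + 1)) ^ (a / nn (j + 1)) * (w (j + 1)) ^ (b / nn (j + 1)) := by
      positivity
    have e : (W j (a % nn (j + 1)) * (w (j + 1)) ^ (a / nn (j + 1))) *
      (W j (b % nn (j + 1)) * (w (j + 1)) ^ (b / nn (j + 1))) =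
      (W j (a % nn (j + 1)) * W j (b % nn (j + 1))) *
      ((w (j + 1)) ^ (a / nn (j + 1)) * (w (j + 1)) ^ (b / nn (j + 1))) := by ring
    rw [e, Nat.add_div hN]
    by_cases hc : nn (j + 1) ≤ a % nn (j + 1) + b % nn (j + 1)
    · rw [if_pos hc]
      have h1 : w (j + 1) ≤ W j (a % nn (j + 1)) * W j (b % nn (j + 1)) := by
        refine (w_succ_le_pow j).trans ?_
        rw [two_mul, pow_add]
        exact mul_le_mul (W_lower j _ ha) (W_lower j _ hb) (pow_pos (w_pos j) _).le
          (W_pos j _).le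
      calc W j ((a + b) % nn (j + 1)) * (w (j + 1)) ^ (a / nn (j + 1) + b / nn (j + 1) + 1)
          ≤ 1 * (w (j + 1)) ^ (a / nn (j + 1) + b / nn (j + 1) + 1) :=
            mul_le_mul_of_nonneg_right (W_le_one j _) (pow_pos hw _).le
        _ = w (j + 1) * ((w (j + 1)) ^ (a / nn (j + 1)) * (w (j + 1)) ^ (b / nn (j + 1))) := by
            rw [one_mul, pow_succ', pow_add]
        _ ≤ _ := mul_le_mul_of_nonneg_right h1 hpq
    · rw [if_neg hc, add_zero, Nat.add_mod, Nat.mod_eq_of_lt (not_le.1 hc), pow_add]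
      exact mul_le_mul_of_nonneg_right (ih _ _) hpq

end Pool.Agent.Helper58.GW
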