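import Pool.Agent.Helper58.GW.B1

set_option autoImplicit false

namespace Pool.Agent.Helper58.GW

open PowerSeries

theorem hB2_const (i m : ℕ) (h : m < nn (i + 1)) (k : ℕ) (hk : i ≤ k) : W k m = W i m := by
  induction k, hk using Nat.le_induction with
  | base => rfl
  | succ k hk ih =>
    rw [W_succ_of_lt k m (lt_of_lt_of_le h (nn_mono (by omega))), ih]

theorem hB2_lt (m : ℕ) : m < nn (m + 1) := lt_trans (Nat.lt_succ_self m) (nn_lt (m + 1))

theorem W_eq_om (j m : ℕ) (h : m < nn (j + 1)) : W j m = om m := by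
  rw [om, ← hB2_const j m h (max j m) (le_max_left _ _),
    ← hB2_const m m (hB2_lt m) (max j m) (le_max_right _ _)]

theorem om_pos (m : ℕ) : 0 < om m := W_pos m m

theorem om_le_one (m : ℕ) : om m ≤ 1 := W_le_one m m

theorem om_zero : om 0 = 1 := rfl

theorem om_submul (a b : ℕ) : om (a + b) ≤ om a * om b := by
  have h := hB2_lt (a + b)
  rw [← W_eq_om (a + b) a (by omega), ← W_eq_om (a + b) b (by omega)]
  exact W_submul (a + b) a b

theorem om_nn (j : ℕ) : om (nn j) = w j := by
  have h8 := nn_two j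
  have h0 := nn_pos j
  rw [← W_eq_om j (nn j) (by omega)]
  cases j with
  | zero => rfl
  | succ j =>
    rw [W]
    beta_reduce
    rw [Nat.mod_self, Nat.div_self h0, pow_one, W_eq_om j 0 (nn_pos (j + 1)), om_zero, one_mul]

theorem om_nn_add (j s : ℕ) (h : s < nn (j + 1)) : om (nn (j + 1) + s) = w (j + 1) * om s := by
  have h8 := nn_two (j + 1)
  have h0 := nn_pos (j + 1)
  rw [← W_eq_om (j + 1) (nn (j + 1) + s) (by omega), W]
  beta_reduce
  rw [Nat.add_mod_left, Nat.mod_eq_of_lt h,
    Nat.add_div_left _ h0, Nat.div_eq_of_lt h, W_eq_om j s h]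
  simp only [Nat.zero_add, Nat.succ_eq_add_one, pow_one]
  rw [mul_comm]

theorem om_lower (j m : ℕ) (h : m < nn (j + 1)) : (w j) ^ (nn (j + 1)) ≤ om m := by
  rw [← W_eq_om j m h]
  exact W_lower j m h

end Pool.Agent.Helper58.GW
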