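import Pool.Agent.Helper58.GW.B2

set_option autoImplicit false

namespace Pool.Agent.Helper58.GW

open PowerSeries

theorem om_rad (j m : ℕ) (h : nn (j + 1) ≤ m) : om m ≤ (1 / (4 * ((j : ℝ) + 2))) ^ m := by
  have hex : ∃ J, m < nn (J + 1) := ⟨m, lt_of_lt_of_le (nn_lt m) (nn_mono (Nat.le_succ m))⟩
  obtain ⟨i, hi, hi1, hi2⟩ : ∃ i, j ≤ i ∧ nn (i + 1) ≤ m ∧ m < nn (i + 2) := by
    have h1 := Nat.find_spec hex
    set J := Nat.find hex with hJ
    have h2 : j < J := by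
      by_contra hcon
      have := nn_mono (show J + 1 ≤ j + 1 by omega)
      omega
    obtain ⟨i, hi⟩ : ∃ i, J = i + 1 := ⟨J - 1, by omega⟩
    have h3 : ¬ m < nn (i + 1) := Nat.find_min hex (by omega)
    refine ⟨i, by omega, by omega, ?_⟩
    rw [hi] at h1
    exact h1
  set q := m / nn (i + 1) with hq
  have hnp := nn_pos (i + 1)
  have hq1 : 1 ≤ q := (Nat.one_le_div_iff hnp).2 hi1
  have hq2 : m ≤ 2 * nn (i + 1) * q := by
    have h1 : m < nn (i + 1) * (q + 1) := by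
      rw [hq]
      exact Nat.lt_mul_div_succ m hnp
    have h2 : nn (i + 1) ≤ nn (i + 1) * q := Nat.le_mul_of_pos_right _ hq1
    nlinarith
  have h1 : om m = W i (m % nn (i + 1)) * (w (i + 1)) ^ q := by
    rw [← W_eq_om (i + 1) m hi2]
    rfl
  have hb0 : (0 : ℝ) < 1 / (4 * ((i : ℝ) + 2)) := by positivity
  have hb1 : 1 / (4 * ((i : ℝ) + 2)) ≤ 1 := by
    rw [div_le_one (by positivity)]
    have : (0 : ℝ) ≤ i := Nat.cast_nonneg i
    linarith
  have hb2 : 1 / (4 * ((i : ℝ) + 2)) ≤ 1 / (4 * ((j : ℝ) + 2)) := by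
    apply one_div_le_one_div_of_le (by positivity)
    have : (j : ℝ) ≤ i := by exact_mod_cast hi
    linarith
  rw [h1]
  calc W i (m % nn (i + 1)) * (w (i + 1)) ^ q ≤ 1 * (w (i + 1)) ^ q :=
        mul_le_mul_of_nonneg_right (W_le_one _ _) (pow_nonneg (w_pos _).le _)
    _ = (w (i + 1)) ^ q := one_mul _
    _ ≤ ((1 / (4 * ((i : ℝ) + 2))) ^ (2 * nn (i + 1))) ^ q :=
        pow_le_pow_left₀ (w_pos _).le (w_rad i) q
    _ = (1 / (4 * ((i : ℝ) + 2))) ^ (2 * nn (i + 1) * q) := by rw [← pow_mul]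
    _ ≤ (1 / (4 * ((i : ℝ) + 2))) ^ m := pow_le_pow_of_le_one hb0.le hb1 hq2
    _ ≤ (1 / (4 * ((j : ℝ) + 2))) ^ m := pow_le_pow_left₀ hb0.le hb2 m

theorem om_tendsto :
    Filter.Tendsto (fun n : ℕ => (om n) ^ (1 / (n : ℝ))) Filter.atTop (nhds 0) := by
  rw [Metric.tendsto_atTop]
  intro ε hε
  obtain ⟨j, hj⟩ := exists_nat_one_div_lt hε
  have hjε : 1 / (4 * ((j : ℝ) + 2)) < ε := by
    refine lt_of_le_of_lt ?_ hj
    apply one_div_le_one_div_of_le (by positivity)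
    have : (0 : ℝ) ≤ j := Nat.cast_nonneg j
    linarith
  refine ⟨nn (j + 1), fun m hm => ?_⟩
  have hm0 : 0 < m := lt_of_lt_of_le (nn_pos _) hm
  have h1 := om_rad j m hm
  have hb0 : (0 : ℝ) < 1 / (4 * ((j : ℝ) + 2)) := by positivity
  have h2 : (om m) ^ (1 / (m : ℝ)) ≤ 1 / (4 * ((j : ℝ) + 2)) := by
    have h3 := Real.rpow_le_rpow (om_pos m).le h1 (show (0 : ℝ) ≤ 1 / (m : ℝ) by positivity)
    rwa [one_div (m : ℝ), Real.pow_rpow_inv_natCast hb0.le hm0.ne', ← one_div (m : ℝ)] at h3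
  have h3 : 0 ≤ (om m) ^ (1 / (m : ℝ)) := Real.rpow_nonneg (om_pos m).le _
  rw [dist_zero_right, Real.norm_eq_abs, abs_of_nonneg h3]
  linarith

end Pool.Agent.Helper58.GW
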