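import Pool.Agent.Helper58.GW.A2

set_option autoImplicit false

namespace Pool.Agent.Helper58.GW

open PowerSeries

theorem L_succ (j k : ℕ) : L (j + 1) k = L j k + if nn (j + 1) ≤ k then
    nu j (k - nn (j + 1)) / c (j + 1) else 0 := by
  simp only [L, nu]

theorem hC1_nu_of_L (j s : ℕ) (hL : ∀ k, 2 * nn j ≤ k → L j k = 0) (h : 2 * nn j ≤ s) :
    nu j s = 0 := by
  have h1 : ∑ i ∈ Finset.range (j + 1), ((nn i : ℝ) * c i / ((s : ℝ) + (nn i : ℝ))) *
      L j (s + nn i) = 0 := by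
    apply Finset.sum_eq_zero
    intro i _
    rw [hL (s + nn i) (by omega), mul_zero]
  rw [nu, h1, neg_zero]

theorem L_supp (j k : ℕ) (h : 2 * nn j ≤ k) : L j k = 0 := by
  induction j generalizing k with
  | zero =>
    have h1 := nn_zero
    have h2 : k ≠ 1 := by omega
    simp only [L, if_neg h2]
  | succ j ih =>
    have h1 := nn_two j
    rw [L_succ, ih k (by omega), if_pos (by omega),
      hC1_nu_of_L j _ ih (by omega), zero_div, add_zero]

theorem nu_supp (j s : ℕ) (h : 2 * nn j ≤ s) : nu j s = 0 :=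
  hC1_nu_of_L j s (fun k hk => L_supp j k hk) h

theorem L_zero_index (j : ℕ) : L j 0 = 0 := by
  induction j with
  | zero => simp [L]
  | succ j ih =>
    have h1 := nn_pos (j + 1)
    rw [L_succ, ih, if_neg (by omega), add_zero]

theorem nu_succ (j s : ℕ) : nu (j + 1) s =
    ((s : ℝ) / ((s : ℝ) + nn (j + 1))) * nu j s -
    (∑ i ∈ Finset.range (j + 1), ((nn i : ℝ) * c i / ((s : ℝ) + (nn i : ℝ))) *
      (if nn (j + 1) ≤ s + nn i then nu j (s + nn i - nn (j + 1)) else 0)) / c (j + 1) := by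
  have hc := c_pos (j + 1)
  have hn : (0 : ℝ) < nn (j + 1) := by exact_mod_cast nn_pos (j + 1)
  have hs : (0 : ℝ) ≤ s := Nat.cast_nonneg _
  have h1 : L (j + 1) (s + nn (j + 1)) = nu j s / c (j + 1) := by
    have h8 := nn_two j
    rw [L_succ, L_supp j _ (by omega), if_pos (by omega), Nat.add_sub_cancel, zero_add]
  have h2 : ∀ i, L (j + 1) (s + nn i) = L j (s + nn i) +
      (if nn (j + 1) ≤ s + nn i then nu j (s + nn i - nn (j + 1)) else 0) / c (j + 1) := by
    intro i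
    rw [L_succ]
    split_ifs <;> simp
  have h3 : nu (j + 1) s = -((∑ i ∈ Finset.range (j + 1),
      ((nn i : ℝ) * c i / ((s : ℝ) + (nn i : ℝ))) * L (j + 1) (s + nn i)) +
      ((nn (j + 1) : ℝ) * c (j + 1) / ((s : ℝ) + (nn (j + 1) : ℝ))) *
        L (j + 1) (s + nn (j + 1))) := by
    have h0 : nu (j + 1) s = -∑ i ∈ Finset.range (j + 1 + 1),
      ((nn i : ℝ) * c i / ((s : ℝ) + (nn i : ℝ))) * L (j + 1) (s + nn i) := rfl
    rw [h0, Finset.sum_range_succ]
  have h5 : nu j s = -∑ i ∈ Finset.range (j + 1),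
      ((nn i : ℝ) * c i / ((s : ℝ) + (nn i : ℝ))) * L j (s + nn i) := rfl
  have h4 : ∑ i ∈ Finset.range (j + 1),
      ((nn i : ℝ) * c i / ((s : ℝ) + (nn i : ℝ))) * L (j + 1) (s + nn i) = -nu j s +
      (∑ i ∈ Finset.range (j + 1), ((nn i : ℝ) * c i / ((s : ℝ) + (nn i : ℝ))) *
      (if nn (j + 1) ≤ s + nn i then nu j (s + nn i - nn (j + 1)) else 0)) / c (j + 1) := by
    rw [h5, neg_neg, Finset.sum_div, ← Finset.sum_add_distrib]
    refine Finset.sum_congr rfl fun i _ => ?_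
    rw [h2]
    ring
  rw [h3, h1, h4]
  generalize (∑ i ∈ Finset.range (j + 1), ((nn i : ℝ) * c i / ((s : ℝ) + (nn i : ℝ))) *
      (if nn (j + 1) ≤ s + nn i then nu j (s + nn i - nn (j + 1)) else 0)) = S
  have h6 : (nn (j + 1) : ℝ) * c (j + 1) / ((s : ℝ) + (nn (j + 1) : ℝ)) * (nu j s / c (j + 1))
      = (nn (j + 1) : ℝ) / ((s : ℝ) + (nn (j + 1) : ℝ)) * nu j s := by
    field_simp
  have h7 : (s : ℝ) / ((s : ℝ) + nn (j + 1)) = 1 - (nn (j + 1) : ℝ) / ((s : ℝ) + nn (j + 1)) := by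
    have : (s : ℝ) + nn (j + 1) ≠ 0 := by positivity
    field_simp
    ring
  rw [h6, h7]
  ring

end Pool.Agent.Helper58.GW
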