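import Pool.Agent.Helper58.GW.B2
import Pool.Agent.Helper58.GW.C1

set_option autoImplicit false

namespace Pool.Agent.Helper58.GW

open PowerSeries

theorem hC2_ep (j : ℕ) : ep (j + 2) = ep (j + 1) / 2 := by
  show (1 / 2 : ℝ) ^ (j + 1) = (1 / 2 : ℝ) ^ j / 2
  rw [pow_succ]; ring

theorem hC2_ep2 (j : ℕ) : ep (j + 2) / (2 * ((j : ℝ) + 1)) = 1 / (2 ^ (j + 2) * ((j : ℝ) + 1)) := by
  show (1 / 2 : ℝ) ^ (j + 1) / (2 * ((j : ℝ) + 1)) = _
  rw [one_div, inv_pow, pow_succ 2 (j + 1)]
  have h1 : (2 : ℝ) ^ (j + 1) ≠ 0 := by positivity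
  have h2 : (j : ℝ) + 1 ≠ 0 := by positivity
  field_simp

theorem hC2_term (j s i : ℕ) (hi : i ≤ j) (ih : ∀ s, |nu j s| ≤ ep (j + 1) * om s) :
    |((nn i : ℝ) * c i / ((s : ℝ) + (nn i : ℝ))) *
      (if nn (j + 1) ≤ s + nn i then nu j (s + nn i - nn (j + 1)) else 0)| ≤
      c (j + 1) * (ep (j + 2) / (2 * ((j : ℝ) + 1)) * om s) := by
  have hrhs : 0 ≤ c (j + 1) * (ep (j + 2) / (2 * ((j : ℝ) + 1)) * om s) := by
    have h1 := c_pos (j + 1)
    have h2 := ep_pos (j + 2)
    have h3 := om_pos s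
    positivity
  by_cases hN : nn (j + 1) ≤ s + nn i
  swap
  · rw [if_neg hN, mul_zero, abs_zero]; exact hrhs
  rw [if_pos hN]
  set t := s + nn i - nn (j + 1) with ht
  by_cases ht2 : 2 * nn j ≤ t
  · rw [nu_supp j t ht2, mul_zero, abs_zero]; exact hrhs
  push Not at ht2
  have hst : s + nn i = nn (j + 1) + t := by omega
  have hcast : (s : ℝ) + (nn i : ℝ) = (nn (j + 1) : ℝ) + t := by exact_mod_cast hst
  have hNpos : (0 : ℝ) < nn (j + 1) := by exact_mod_cast nn_pos (j + 1)
  have hnipos : (0 : ℝ) < nn i := by exact_mod_cast nn_pos i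
  have ht0 : (0 : ℝ) ≤ t := Nat.cast_nonneg t
  have hcw := c_mul_w (j + 1)
  have hcpos := c_pos (j + 1)
  have hci := c_pos i
  have hwpos := w_pos (j + 1)
  have hωt := om_pos t
  have hnn : (nn i : ℝ) ≤ nn j := by exact_mod_cast nn_mono hi
  have hepp := ep_pos (j + 1)
  rw [hcast, abs_mul, abs_of_pos (by positivity : (0:ℝ) < (nn i : ℝ) * c i / ((nn (j + 1) : ℝ) + t))]
  have e1 : (nn i : ℝ) * c i / ((nn (j + 1) : ℝ) + t) * |nu j t| ≤
      (nn i : ℝ) * c i / ((nn (j + 1) : ℝ) + t) * (ep (j + 1) * om t) :=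
    mul_le_mul_of_nonneg_left (ih t) (by positivity)
  refine e1.trans ?_
  rw [← hcw]
  have e2 : (nn i : ℝ) * c i / ((nn (j + 1) : ℝ) + t) * (c (j + 1) * w (j + 1) * om t) =
      c (j + 1) * ((nn i : ℝ) / ((nn (j + 1) : ℝ) + t) * (c i * w (j + 1) * om t)) := by ring
  rw [e2]
  apply mul_le_mul_of_nonneg_left _ hcpos.le
  rcases lt_or_ge s (nn (j + 1)) with hs | hs
  · -- s < N
    have f1 : (nn i : ℝ) / ((nn (j + 1) : ℝ) + t) ≤ 1 := by
      rw [div_le_one (by positivity)]
      have h2 : nn j ≤ nn (j + 1) := nn_mono (Nat.le_succ j)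
      have h3 : (nn j : ℝ) ≤ nn (j + 1) := by exact_mod_cast h2
      linarith
    have f2 : c i * w (j + 1) * om t ≤ w (j + 1) / w j := by
      have h1 := c_le i j hi
      have h2 := om_le_one t
      calc c i * w (j + 1) * om t ≤ (1 / w j * w (j + 1)) * 1 := by
            apply mul_le_mul _ h2 hωt.le (by have := w_pos j; positivity)
            exact mul_le_mul_of_nonneg_right h1 hwpos.le
        _ = w (j + 1) / w j := by ring
    have f3 : (nn i : ℝ) / ((nn (j + 1) : ℝ) + t) * (c i * w (j + 1) * om t) ≤ 1 * (w (j + 1) / w j) :=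
      mul_le_mul f1 f2 (by positivity) zero_le_one
    refine f3.trans ?_
    rw [one_mul, div_le_iff₀ (w_pos j)]
    refine (w_small j).trans ?_
    have f4 := om_lower j s hs
    have hc0 : 0 ≤ ep (j + 2) / (2 * ((j : ℝ) + 1)) := by
      have := ep_pos (j + 2); positivity
    rw [pow_succ, mul_assoc]
    apply mul_le_mul_of_nonneg_left _ hc0
    exact mul_le_mul_of_nonneg_right f4 (w_pos j).le
  · -- s ≥ N
    obtain ⟨s', rfl⟩ := Nat.exists_eq_add_of_le hs
    have hts : t = s' + nn i := by omega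
    have hs'N : s' < nn (j + 1) := by
      have h2 := nn_two j
      have h3 := nn_pos j
      omega
    rw [om_nn_add j s' hs'N]
    have f1 : om t ≤ om s' * w i := by
      rw [hts]
      have := om_submul s' (nn i)
      rwa [om_nn] at this
    have f2 : c i * w (j + 1) * om t ≤ w (j + 1) * om s' := by
      have h1 := c_mul_w i
      have h2 := ep_le_one i
      have hω' := om_pos s'
      calc c i * w (j + 1) * om t ≤ c i * w (j + 1) * (om s' * w i) :=
            mul_le_mul_of_nonneg_left f1 (by positivity)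
        _ = (c i * w i) * (w (j + 1) * om s') := by ring
        _ ≤ 1 * (w (j + 1) * om s') := by
            rw [h1]
            exact mul_le_mul_of_nonneg_right h2 (by positivity)
        _ = _ := one_mul _
    have f3 : (nn i : ℝ) / ((nn (j + 1) : ℝ) + t) ≤ ep (j + 2) / (2 * ((j : ℝ) + 1)) := by
      rw [hC2_ep2, div_le_div_iff₀ (by positivity) (by positivity)]
      have h1 := nn_big j
      have h2 : (2 : ℝ) ^ (j + 2) * ((j : ℝ) + 1) * nn j ≤ nn (j + 1) := by exact_mod_cast h1
      have h3 : (2 : ℝ) ^ (j + 2) * ((j : ℝ) + 1) * nn i ≤ (2 : ℝ) ^ (j + 2) * ((j : ℝ) + 1) * nn j :=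
        mul_le_mul_of_nonneg_left hnn (by positivity)
      linarith
    have hω' := om_pos s'
    have hep2 := ep_pos (j + 2)
    exact mul_le_mul f3 f2 (by positivity) (by positivity)

theorem nu_bound (j s : ℕ) : |nu j s| ≤ ep (j + 1) * om s := by
  induction j generalizing s with
  | zero =>
    have hc0 : c 0 = 1 := by
      unfold c ep w
      norm_num
    have h1 : nu 0 s = -((1 : ℝ) / ((s : ℝ) + 1) * (if s = 0 then 1 else 0)) := by
      unfold nu
      rw [Finset.sum_range_one, nn_zero, hc0]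
      unfold L
      simp
    rw [h1]
    have hep1 : ep (0 + 1) = 1 := by
      show (1 / 2 : ℝ) ^ 0 = 1
      simp
    rw [hep1, one_mul]
    by_cases hs : s = 0
    · subst hs
      simp [om_zero]
    · simp only [if_neg hs, mul_zero, neg_zero, abs_zero]
      exact (om_pos s).le
  | succ j ih =>
    rw [nu_succ]
    have hNpos : (0 : ℝ) < nn (j + 1) := by exact_mod_cast nn_pos (j + 1)
    have hcpos := c_pos (j + 1)
    have hω := om_pos s
    have hep := ep_pos (j + 1)
    have hep2 := ep_pos (j + 2)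
    have a1 : |((s : ℝ) / ((s : ℝ) + nn (j + 1))) * nu j s| ≤ 1 / 2 * (ep (j + 2) * om s) := by
      by_cases hs : 2 * nn j ≤ s
      · rw [nu_supp j s hs, mul_zero, abs_zero]; positivity
      · push Not at hs
        rw [abs_mul, abs_of_nonneg (by positivity : (0:ℝ) ≤ (s : ℝ) / ((s : ℝ) + nn (j + 1)))]
        have h1 : (s : ℝ) / ((s : ℝ) + nn (j + 1)) ≤ 1 / 4 := by
          rw [div_le_div_iff₀ (by positivity) (by norm_num)]
          have h2 := nn_two j
          have h3 : 4 * s ≤ nn (j + 1) := by omega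
          have h4 : (4 : ℝ) * s ≤ nn (j + 1) := by exact_mod_cast h3
          have : (0 : ℝ) ≤ s := Nat.cast_nonneg s
          linarith
        calc (s : ℝ) / ((s : ℝ) + nn (j + 1)) * |nu j s| ≤ 1 / 4 * (ep (j + 1) * om s) :=
              mul_le_mul h1 (ih s) (abs_nonneg _) (by norm_num)
          _ = 1 / 2 * (ep (j + 2) * om s) := by rw [hC2_ep]; ring
    have a2 : |(∑ i ∈ Finset.range (j + 1), ((nn i : ℝ) * c i / ((s : ℝ) + (nn i : ℝ))) *
      (if nn (j + 1) ≤ s + nn i then nu j (s + nn i - nn (j + 1)) else 0)) / c (j + 1)| ≤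
        1 / 2 * (ep (j + 2) * om s) := by
      rw [abs_div, abs_of_pos hcpos, div_le_iff₀ hcpos]
      refine (Finset.abs_sum_le_sum_abs _ _).trans ?_
      refine (Finset.sum_le_sum (fun i hi => hC2_term j s i
        (Nat.lt_succ_iff.1 (Finset.mem_range.1 hi)) ih)).trans ?_
      rw [Finset.sum_const, Finset.card_range, nsmul_eq_mul]
      apply le_of_eq
      have h2 : (j : ℝ) + 1 ≠ 0 := by positivity
      push_cast
      field_simp
    refine (abs_sub _ _).trans ?_
    have : ep (j + 1 + 1) = ep (j + 2) := rfl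
    rw [this]
    linarith

end Pool.Agent.Helper58.GW
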