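import Pool.Agent.Helper58.GW.C2

set_option autoImplicit false

namespace Pool.Agent.Helper58.GW

open PowerSeries

theorem L_bound (j k : ℕ) : |L j k| ≤ om k := by
  induction j generalizing k with
  | zero =>
    show |(if k = 1 then (1 : ℝ) else 0)| ≤ om k
    split_ifs with h
    · subst h
      have h1 : om (nn 0) = w 0 := om_nn 0
      rw [nn_zero] at h1
      rw [h1]
      simp [w]
    · rw [abs_zero]; exact (om_pos k).le
  | succ j ih =>
    rw [L_succ]
    split_ifs with h
    · obtain ⟨s, rfl⟩ := Nat.exists_eq_add_of_le h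
      have h2 : 2 * nn j ≤ nn (j + 1) := by have := nn_two j; omega
      have h3 : 2 * nn j ≤ nn (j + 1) + s := by omega
      rw [L_supp j _ h3, zero_add, Nat.add_sub_cancel_left]
      by_cases hs : 2 * nn j ≤ s
      · rw [nu_supp j s hs, zero_div, abs_zero]
        exact (om_pos _).le
      · have hs' : s < nn (j + 1) := by omega
        have hc := c_pos (j + 1)
        rw [om_nn_add j s hs', abs_div, abs_of_pos hc, div_le_iff₀ hc]
        refine (nu_bound j s).trans (le_of_eq ?_)
        rw [← c_mul_w (j + 1)]
        ring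
    · rw [add_zero]; exact ih k

theorem hC3_stab (j i k : ℕ) (hji : j ≤ i) (h : k < nn (j + 1)) : L i k = L j k := by
  induction i, hji using Nat.le_induction with
  | base => rfl
  | succ i hji ih =>
    rw [L_succ, if_neg, add_zero, ih]
    have := nn_mono (show j + 1 ≤ i + 1 by omega)
    omega

theorem L_eq_lam (j k : ℕ) (h : k < nn (j + 1)) : L j k = lam k := by
  have h1 : k < nn (k + 1) := (nn_lt k).trans_le (nn_mono (Nat.le_succ k))
  have e1 := hC3_stab j (max j k) k (le_max_left _ _) h
  have e2 := hC3_stab k (max j k) k (le_max_right _ _) h1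
  unfold lam
  rw [← e1, e2]

theorem lam_bound (k : ℕ) : |lam k| ≤ om k := L_bound k k

theorem lam_one : lam 1 = 1 := by
  have h := nn_two 0
  rw [nn_zero] at h
  rw [← L_eq_lam 0 1 (by omega)]
  rfl

end Pool.Agent.Helper58.GW
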