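import Pool.Agent.Helper58.GW.B2

set_option autoImplicit false

namespace Pool.Agent.Helper58.GW

open PowerSeries

theorem hD1_coeff_F (j k : ℕ) : PowerSeries.coeff k (F j) =
    ∑ i ∈ Finset.range (j + 1), (if k = nn i then ((c i : ℝ) : ℂ) else 0) := by
  unfold F
  rw [map_sum]
  apply Finset.sum_congr rfl
  intro i _
  rw [PowerSeries.coeff_C_mul, PowerSeries.coeff_X_pow, mul_ite, mul_one, mul_zero]

theorem hD1_stab {j j' k : ℕ} (hj : j ≤ j') (h : k < nn (j + 1)) :
    PowerSeries.coeff k (F j') = PowerSeries.coeff k (F j) := by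
  rw [hD1_coeff_F, hD1_coeff_F]
  symm
  apply Finset.sum_subset
  · intro i hi
    rw [Finset.mem_range] at *
    omega
  · intro i _ hi
    rw [Finset.mem_range, not_lt] at hi
    have := nn_mono hi
    rw [if_neg (by omega)]

theorem hD1_nn_lt_succ (j : ℕ) : nn j < nn (j + 1) := by
  have h1 := nn_two j
  have h2 := nn_pos j
  omega

theorem hD1_nn_inj : Function.Injective nn := (strictMono_nat_of_lt_succ hD1_nn_lt_succ).injective

theorem hD1_pow {R : Type} [CommRing R] (N : ℕ) (p q : PowerSeries R)
    (h : ∀ k < N, PowerSeries.coeff k p = PowerSeries.coeff k q) (m : ℕ) :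
    ∀ k < N, PowerSeries.coeff k (p ^ m) = PowerSeries.coeff k (q ^ m) := by
  induction m with
  | zero => intro k _; rw [pow_zero, pow_zero]
  | succ m ih =>
    intro k hk
    rw [pow_succ, pow_succ, PowerSeries.coeff_mul, PowerSeries.coeff_mul]
    apply Finset.sum_congr rfl
    rintro ⟨a, b⟩ hab
    rw [Finset.HasAntidiagonal.mem_antidiagonal] at hab
    simp only at hab ⊢
    rw [ih a (by omega), h b (by omega)]

theorem f_coeff (j k : ℕ) (h : k < nn (j + 1)) :
    PowerSeries.coeff k f = PowerSeries.coeff k (F j) := by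
  unfold f
  rw [PowerSeries.coeff_mk]
  rcases le_total j k with hjk | hjk
  · exact hD1_stab hjk h
  · refine (hD1_stab hjk ?_).symm
    exact lt_trans (nn_lt k) (hD1_nn_lt_succ k)

theorem f_coeff_pow (j k m : ℕ) (h : k < nn (j + 1)) :
    PowerSeries.coeff k (f ^ m) = PowerSeries.coeff k ((F j) ^ m) :=
  hD1_pow (nn (j + 1)) f (F j) (fun k hk => f_coeff j k hk) m k h

theorem f_zero : PowerSeries.coeff 0 f = 0 := by
  rw [f_coeff 0 0 (nn_pos _), hD1_coeff_F]
  simp [nn_zero]

theorem f_one : PowerSeries.coeff 1 f = 1 := by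
  have h1 : 1 < nn (0 + 1) := by norm_num [nn]
  rw [f_coeff 0 1 h1, hD1_coeff_F]
  simp [nn_zero, c, ep, w]

theorem F_deg (j m k : ℕ) (h : m * nn j < k) : PowerSeries.coeff k ((F j) ^ m) = 0 := by
  induction m generalizing k with
  | zero =>
    rw [pow_zero, PowerSeries.coeff_one, if_neg (by omega)]
  | succ m ih =>
    rw [pow_succ, PowerSeries.coeff_mul]
    apply Finset.sum_eq_zero
    rintro ⟨a, b⟩ hab
    rw [Finset.HasAntidiagonal.mem_antidiagonal] at hab
    simp only at hab ⊢
    by_cases ha : m * nn j < a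
    · rw [ih a ha, zero_mul]
    · rw [not_lt] at ha
      have e : (m + 1) * nn j = m * nn j + nn j := by ring
      have hb : nn j < b := by omega
      have hz : PowerSeries.coeff b (F j) = 0 := by
        rw [hD1_coeff_F]
        apply Finset.sum_eq_zero
        intro i hi
        rw [Finset.mem_range] at hi
        have := nn_mono (show i ≤ j by omega)
        rw [if_neg (by omega)]
      rw [hz, mul_zero]

theorem hD1_ep_summable : Summable ep := by
  rw [← summable_nat_add_iff 1]
  exact summable_geometric_two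

theorem f_summable : Summable (fun n : ℕ => ‖PowerSeries.coeff n f‖ * om n) := by
  rw [← hD1_nn_inj.summable_iff (f := fun n : ℕ => ‖PowerSeries.coeff n f‖ * om n)]
  · have : ((fun n : ℕ => ‖PowerSeries.coeff n f‖ * om n) ∘ nn) = ep := by
      funext j
      simp only [Function.comp]
      rw [f_coeff j (nn j) (hD1_nn_lt_succ j), hD1_coeff_F, om_nn]
      have h1 : ∀ i ∈ Finset.range (j + 1), (if nn j = nn i then ((c i : ℝ) : ℂ) else 0) =
          if j = i then ((c i : ℝ) : ℂ) else 0 := by
        intro i _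
        by_cases hij : j = i
        · subst hij; simp
        · rw [if_neg hij, if_neg (fun h => hij (hD1_nn_inj h))]
      rw [Finset.sum_congr rfl h1, Finset.sum_ite_eq, if_pos (by simp), Complex.norm_real,
        Real.norm_of_nonneg (c_pos j).le, c_mul_w]
    rw [this]
    exact hD1_ep_summable
  · intro x hx
    rw [f_coeff x x (lt_trans (nn_lt x) (hD1_nn_lt_succ x)), hD1_coeff_F]
    have : ∑ i ∈ Finset.range (x + 1), (if x = nn i then ((c i : ℝ) : ℂ) else 0) = 0 := by
      apply Finset.sum_eq_zero
      intro i _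
      rw [if_neg]
      intro h
      exact hx ⟨i, h.symm⟩
    rw [this, norm_zero, zero_mul]

end Pool.Agent.Helper58.GW
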