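import Pool.Agent.Helper58.GW.C1

set_option autoImplicit false

namespace Pool.Agent.Helper58.GW

open PowerSeries

theorem hD2_shift (N n : ℕ) (g h : ℕ → ℂ) (hg : ∀ k, N ≤ k → g k = 0) :
    ∑ k ∈ Finset.range N, (if n ≤ k then g k * h (k - n) else 0) =
      ∑ s ∈ Finset.range N, g (s + n) * h s := by
  have h1 : ∑ k ∈ Finset.range (N + n), (if n ≤ k then g k * h (k - n) else 0) =
      ∑ k ∈ Finset.range N, (if n ≤ k then g k * h (k - n) else 0) := by
    rw [Finset.sum_range_add]
    have h2 : ∑ x ∈ Finset.range n, (if n ≤ N + x then g (N + x) * h (N + x - n) else 0) = 0 := by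
      apply Finset.sum_eq_zero
      intro x _
      rw [hg (N + x) (by omega)]
      simp
    rw [h2, add_zero]
  rw [← h1, add_comm N n, Finset.sum_range_add]
  have h3 : ∑ x ∈ Finset.range n, (if n ≤ x then g x * h (x - n) else 0) = 0 := by
    apply Finset.sum_eq_zero
    intro x hx
    rw [if_neg (by rw [Finset.mem_range] at hx; omega)]
  rw [h3, zero_add]
  apply Finset.sum_congr rfl
  intro s _
  rw [if_pos (by omega), Nat.add_sub_cancel_left, add_comm n s]

theorem hD2_coeff (j m k : ℕ) :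
    (k : ℂ) * PowerSeries.coeff k ((F j) ^ (m + 1)) =
      ((m : ℂ) + 1) * ∑ i ∈ Finset.range (j + 1), (nn i : ℂ) * ((c i : ℝ) : ℂ) *
        (if nn i ≤ k then PowerSeries.coeff (k - nn i) ((F j) ^ m) else 0) := by
  cases k with
  | zero =>
    have : ∀ i ∈ Finset.range (j + 1), (nn i : ℂ) * ((c i : ℝ) : ℂ) *
        (if nn i ≤ 0 then PowerSeries.coeff (0 - nn i) ((F j) ^ m) else 0) = 0 := by
      intro i _
      have := nn_pos i
      rw [if_neg (by omega), mul_zero]
    rw [Finset.sum_eq_zero this]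
    simp
  | succ k =>
    have h1 := PowerSeries.coeff_derivative ((F j) ^ (m + 1)) k
    have h2 : PowerSeries.derivative ℂ ((F j) ^ (m + 1)) =
        PowerSeries.C ((m : ℂ) + 1) * ∑ i ∈ Finset.range (j + 1),
          PowerSeries.C ((nn i : ℂ) * ((c i : ℝ) : ℂ)) *
            ((F j) ^ m * (PowerSeries.X) ^ (nn i - 1)) := by
      rw [Derivation.leibniz_pow]
      have h3 : PowerSeries.derivative ℂ (F j) = ∑ i ∈ Finset.range (j + 1),
          PowerSeries.C ((nn i : ℂ) * ((c i : ℝ) : ℂ)) * (PowerSeries.X) ^ (nn i - 1) := by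
        unfold F
        rw [map_sum]
        apply Finset.sum_congr rfl
        intro i _
        rw [Derivation.leibniz, Derivation.leibniz_pow, PowerSeries.derivative_X,
          PowerSeries.derivative_C]
        simp only [smul_eq_mul, mul_one, smul_zero, add_zero, nsmul_eq_mul, mul_zero, map_mul,
          map_natCast]
        ring
      rw [h3]
      simp only [Nat.add_sub_cancel, smul_eq_mul, nsmul_eq_mul, Finset.mul_sum, map_add, map_one,
        map_natCast]
      apply Finset.sum_congr rfl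
      intro i _
      push_cast
      ring
    have h4 : PowerSeries.coeff k (PowerSeries.derivative ℂ ((F j) ^ (m + 1))) =
        ((m : ℂ) + 1) * ∑ i ∈ Finset.range (j + 1), (nn i : ℂ) * ((c i : ℝ) : ℂ) *
        (if nn i ≤ k + 1 then PowerSeries.coeff (k + 1 - nn i) ((F j) ^ m) else 0) := by
      rw [h2, PowerSeries.coeff_C_mul, map_sum]
      congr 1
      apply Finset.sum_congr rfl
      intro i _
      rw [PowerSeries.coeff_C_mul, PowerSeries.coeff_mul_X_pow']
      have hp := nn_pos i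
      by_cases h5 : nn i ≤ k + 1
      · rw [if_pos h5, if_pos (by omega)]
        congr 3
        omega
      · rw [if_neg h5, if_neg (by omega)]
    rw [← h4, h1]
    push_cast
    ring

theorem key_int (j m : ℕ) :
    ((m : ℂ) + 1) * nuf j ((F j) ^ m) = - Lf j ((F j) ^ (m + 1)) := by
  obtain ⟨g, hg⟩ : ∃ g : ℕ → ℂ, ∀ k, g k = ((L j k : ℝ) : ℂ) / (k : ℂ) := ⟨_, fun k => rfl⟩
  obtain ⟨h, hh⟩ : ∃ h : ℕ → ℂ, ∀ k, h k = PowerSeries.coeff k ((F j) ^ m) := ⟨_, fun k => rfl⟩
  have hLf : Lf j ((F j) ^ (m + 1)) = ((m : ℂ) + 1) * ∑ i ∈ Finset.range (j + 1),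
      ((nn i : ℂ) * ((c i : ℝ) : ℂ)) * ∑ k ∈ Finset.range (2 * nn j),
        (if nn i ≤ k then g k * h (k - nn i) else 0) := by
    unfold Lf
    have h1 : ∀ k ∈ Finset.range (2 * nn j),
        ((L j k : ℝ) : ℂ) * PowerSeries.coeff k ((F j) ^ (m + 1)) =
        ∑ i ∈ Finset.range (j + 1), ((m : ℂ) + 1) * (((nn i : ℂ) * ((c i : ℝ) : ℂ)) *
          (if nn i ≤ k then g k * h (k - nn i) else 0)) := by
      intro k _
      have h2 : ((L j k : ℝ) : ℂ) = g k * (k : ℂ) := by
        rw [hg]
        rcases Nat.eq_zero_or_pos k with hk | hk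
        · subst hk
          rw [L_zero_index]
          simp
        · have : (k : ℂ) ≠ 0 := by exact_mod_cast hk.ne'
          field_simp
      rw [h2, mul_assoc, hD2_coeff, ← mul_assoc, mul_comm (g k), mul_assoc, Finset.mul_sum,
        Finset.mul_sum]
      apply Finset.sum_congr rfl
      intro i _
      rw [← hh]
      split_ifs
      · ring
      · ring
    rw [Finset.sum_congr rfl h1, Finset.sum_comm, Finset.mul_sum]
    apply Finset.sum_congr rfl
    intro i _
    rw [Finset.mul_sum, Finset.mul_sum]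
  have hnuf : nuf j ((F j) ^ m) = -∑ i ∈ Finset.range (j + 1),
      ((nn i : ℂ) * ((c i : ℝ) : ℂ)) * ∑ s ∈ Finset.range (2 * nn j), g (s + nn i) * h s := by
    unfold nuf nu
    have h1 : ∀ s ∈ Finset.range (2 * nn j),
        (((-∑ i ∈ Finset.range (j + 1), ((nn i : ℝ) * c i / ((s : ℝ) + (nn i : ℝ))) *
          L j (s + nn i) : ℝ)) : ℂ) * PowerSeries.coeff s ((F j) ^ m) =
        -∑ i ∈ Finset.range (j + 1), ((nn i : ℂ) * ((c i : ℝ) : ℂ)) * (g (s + nn i) * h s) := by
      intro s _
      push_cast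
      rw [neg_mul, Finset.sum_mul]
      congr 1
      apply Finset.sum_congr rfl
      intro i _
      rw [hg, hh]
      push_cast
      ring
    rw [Finset.sum_congr rfl h1, Finset.sum_neg_distrib, Finset.sum_comm]
    congr 1
    apply Finset.sum_congr rfl
    intro i _
    rw [Finset.mul_sum]
  have hgz : ∀ k, 2 * nn j ≤ k → g k = 0 := by
    intro k hk
    rw [hg, L_supp j k hk]
    simp
  rw [hLf, hnuf]
  have h3 : ∀ i ∈ Finset.range (j + 1), ((nn i : ℂ) * ((c i : ℝ) : ℂ)) *
      ∑ k ∈ Finset.range (2 * nn j), (if nn i ≤ k then g k * h (k - nn i) else 0) =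
      ((nn i : ℂ) * ((c i : ℝ) : ℂ)) * ∑ s ∈ Finset.range (2 * nn j), g (s + nn i) * h s := by
    intro i _
    rw [hD2_shift _ _ g h hgz]
  rw [Finset.sum_congr rfl h3]
  ring

end Pool.Agent.Helper58.GW
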