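import Pool.Agent.Helper58.GW.C1

set_option autoImplicit false

namespace Pool.Agent.Helper58.GW

open PowerSeries

theorem hD3_pow_add (G u : PowerSeries ℂ) (N m : ℕ) : ∃ r : PowerSeries ℂ,
    (G + u * (PowerSeries.X) ^ N) ^ (m + 1) =
      G ^ (m + 1) + ((m : PowerSeries ℂ) + 1) * (u * (PowerSeries.X) ^ N * G ^ m) +
        (PowerSeries.X) ^ (2 * N) * r := by
  induction m with
  | zero => exact ⟨0, by simp⟩
  | succ m ih =>
    obtain ⟨r, hr⟩ := ih
    refine ⟨r * (G + u * (PowerSeries.X) ^ N) + ((m : PowerSeries ℂ) + 1) * u * u * G ^ m, ?_⟩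
    rw [pow_succ, hr]
    push_cast
    ring

theorem hD3_coeff (G : PowerSeries ℂ) (u : ℂ) (N m k : ℕ) (hk : k < 2 * N) :
    PowerSeries.coeff k ((G + PowerSeries.C u * (PowerSeries.X) ^ N) ^ (m + 1)) =
      PowerSeries.coeff k (G ^ (m + 1)) +
        ((m : ℂ) + 1) * (if N ≤ k then u * PowerSeries.coeff (k - N) (G ^ m) else 0) := by
  obtain ⟨r, hr⟩ := hD3_pow_add G (PowerSeries.C u) N m
  rw [hr, map_add, map_add]
  have h1 : PowerSeries.coeff k ((PowerSeries.X : PowerSeries ℂ) ^ (2 * N) * r) = 0 := by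
    rw [PowerSeries.coeff_X_pow_mul']
    rw [if_neg (by omega)]
  have h2 : ((m : PowerSeries ℂ) + 1) * (PowerSeries.C u * (PowerSeries.X) ^ N * G ^ m) =
      PowerSeries.C (((m : ℂ) + 1) * u) * ((PowerSeries.X) ^ N * G ^ m) := by
    rw [map_mul, map_add, map_one, map_natCast]
    ring
  rw [h1, h2, PowerSeries.coeff_C_mul, PowerSeries.coeff_X_pow_mul']
  by_cases h : N ≤ k
  · rw [if_pos h, if_pos h]; ring
  · rw [if_neg h, if_neg h]; ring

theorem hD3_F_succ (j : ℕ) : F (j + 1) =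
    F j + PowerSeries.C ((c (j + 1) : ℝ) : ℂ) * (PowerSeries.X) ^ (nn (j + 1)) := by
  unfold F
  rw [Finset.sum_range_succ]

theorem hD3_sum_restrict (f : ℕ → ℂ) (a b : ℕ) (hab : a ≤ b) (h : ∀ k, a ≤ k → f k = 0) :
    ∑ k ∈ Finset.range b, f k = ∑ k ∈ Finset.range a, f k := by
  symm
  apply Finset.sum_subset
  · intro x hx
    simp only [Finset.mem_range] at hx ⊢
    omega
  · intro x _ hx
    apply h
    simpa using hx

theorem key_step (j m : ℕ) : Lf (j + 1) ((F (j + 1)) ^ (m + 1)) =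
    Lf j ((F j) ^ (m + 1)) + ((m : ℂ) + 1) * nuf j ((F j) ^ m) +
    (1 / ((c (j + 1) : ℝ) : ℂ)) * ∑ s ∈ Finset.range (2 * nn j), ((nu j s : ℝ) : ℂ) *
      PowerSeries.coeff (nn (j + 1) + s) ((F j) ^ (m + 1)) := by
  have hc : ((c (j + 1) : ℝ) : ℂ) ≠ 0 := by
    exact_mod_cast (c_pos (j + 1)).ne'
  have hN : 2 * nn j ≤ nn (j + 1) := by
    have := nn_two j
    omega
  unfold Lf nuf
  have e1 : ∀ k ∈ Finset.range (2 * nn (j + 1)),
      ((L (j + 1) k : ℝ) : ℂ) * PowerSeries.coeff k ((F (j + 1)) ^ (m + 1)) =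
      ((L j k : ℝ) : ℂ) * PowerSeries.coeff k ((F j) ^ (m + 1)) +
      (if nn (j + 1) ≤ k then
        ((nu j (k - nn (j + 1)) : ℝ) : ℂ) / ((c (j + 1) : ℝ) : ℂ) * PowerSeries.coeff k ((F j) ^ (m + 1)) +
        ((m : ℂ) + 1) * (((nu j (k - nn (j + 1)) : ℝ) : ℂ) * PowerSeries.coeff (k - nn (j + 1)) ((F j) ^ m))
        else 0) := by
    intro k hk
    rw [Finset.mem_range] at hk
    rw [hD3_F_succ, hD3_coeff _ _ _ _ _ hk, L_succ]
    by_cases h : nn (j + 1) ≤ k
    · rw [if_pos h, if_pos h, if_pos h, L_supp j k (by omega)]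
      push_cast
      field_simp
      ring
    · rw [if_neg h, if_neg h, if_neg h]
      push_cast
      ring
  rw [Finset.sum_congr rfl e1, Finset.sum_add_distrib]
  rw [hD3_sum_restrict _ (2 * nn j) (2 * nn (j + 1)) (by omega)
    (fun k hk => by rw [L_supp j k hk]; simp)]
  rw [add_assoc]
  congr 1
  rw [two_mul (nn (j + 1)), Finset.sum_range_add]
  rw [Finset.sum_eq_zero (s := Finset.range (nn (j + 1))) (fun x hx => by
    rw [Finset.mem_range] at hx
    rw [if_neg (by omega)])]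
  rw [zero_add]
  rw [hD3_sum_restrict _ (2 * nn j) (nn (j + 1)) (by omega)
    (fun k hk => by
      have e : nn (j + 1) + k - nn (j + 1) = k := by omega
      rw [if_pos (by omega), e, nu_supp j k hk]; simp)]
  rw [Finset.mul_sum, Finset.mul_sum, ← Finset.sum_add_distrib]
  apply Finset.sum_congr rfl
  intro s _
  have e : nn (j + 1) + s - nn (j + 1) = s := by omega
  rw [if_pos (by omega), e]
  ring

end Pool.Agent.Helper58.GW
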