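import Mathlib

set_option autoImplicit false

namespace Pool.Agent.Helper58.GW

open PowerSeries

/-- block lengths -/
def nn (j : ℕ) : ℕ := 8 ^ (j ^ 2)

/-- values of the weight at the points nn j -/
noncomputable def w : ℕ → ℝ
  | 0 => 1
  | (j + 1) => (w j / (4 * ((j : ℝ) + 2))) ^ (2 * nn (j + 1))

/-- the norms of the terms of the power series f -/
noncomputable def ep : ℕ → ℝ
  | 0 => 1
  | (j + 1) => (1 / 2 : ℝ) ^ j

/-- coefficients of the power series f -/
noncomputable def c (j : ℕ) : ℝ := ep j / w j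

/-- finite stages of the weight -/
noncomputable def W : ℕ → ℕ → ℝ
  | 0 => fun _ => 1
  | (j + 1) => fun m => W j (m % nn (j + 1)) * (w (j + 1)) ^ (m / nn (j + 1))

/-- the weight -/
noncomputable def om (m : ℕ) : ℝ := W m m

/-- stages of the functional -/
noncomputable def L : ℕ → ℕ → ℝ
  | 0 => fun k => if k = 1 then 1 else 0
  | (j + 1) => fun k => L j k + if nn (j + 1) ≤ k then
      (-∑ i ∈ Finset.range (j + 1), ((nn i : ℝ) * c i / (((k - nn (j + 1) : ℕ) : ℝ) + (nn i : ℝ))) *
        L j ((k - nn (j + 1)) + nn i)) / c (j + 1) else 0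

/-- the functional nu of stage j -/
noncomputable def nu (j s : ℕ) : ℝ :=
  -∑ i ∈ Finset.range (j + 1), ((nn i : ℝ) * c i / ((s : ℝ) + (nn i : ℝ))) * L j (s + nn i)

/-- the limit functional -/
noncomputable def lam (k : ℕ) : ℝ := L k k

/-- polynomial stages of the power series -/
noncomputable def F (j : ℕ) : PowerSeries ℂ :=
  ∑ i ∈ Finset.range (j + 1), (PowerSeries.C ((c i : ℝ) : ℂ)) * (PowerSeries.X) ^ (nn i)

/-- the power series -/
noncomputable def f : PowerSeries ℂ := PowerSeries.mk (fun k => PowerSeries.coeff k (F k))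

/-- the stage functional applied to a power series -/
noncomputable def Lf (j : ℕ) (p : PowerSeries ℂ) : ℂ :=
  ∑ k ∈ Finset.range (2 * nn j), ((L j k : ℝ) : ℂ) * PowerSeries.coeff k p

/-- nu applied to a power series -/
noncomputable def nuf (j : ℕ) (p : PowerSeries ℂ) : ℂ :=
  ∑ s ∈ Finset.range (2 * nn j), ((nu j s : ℝ) : ℂ) * PowerSeries.coeff s p

end Pool.Agent.Helper58.GW
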