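import Pool.Agent.Helper58.GW.Defs

set_option autoImplicit false

namespace Pool.Agent.Helper58.GW

open PowerSeries

theorem hE1_anti (u v : ℕ → ℝ) (hu0 : ∀ n, 0 ≤ u n) (hv0 : ∀ n, 0 ≤ v n) (hu : Summable u)
    (hv : Summable v) : Summable (fun n : ℕ => ∑ kl ∈ Finset.HasAntidiagonal.antidiagonal n, u kl.1 * v kl.2) := by
  have h1 : Summable (fun x : ℕ × ℕ => u x.1 * v x.2) := Summable.mul_of_nonneg hu hv hu0 hv0
  exact summable_sum_mul_antidiagonal_of_summable_mul h1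

theorem hE1_le (ω : ℕ → ℝ) (hpos : ∀ n, 0 < ω n) (hsub : ∀ m n, ω (m + n) ≤ ω m * ω n)
    (x y : ℕ → ℂ) (n : ℕ) : ‖∑ p ∈ Finset.HasAntidiagonal.antidiagonal n, x p.1 * y p.2‖ * ω n ≤
      ∑ p ∈ Finset.HasAntidiagonal.antidiagonal n, (‖x p.1‖ * ω p.1) * (‖y p.2‖ * ω p.2) := by
  refine (mul_le_mul_of_nonneg_right (norm_sum_le _ _) (hpos n).le).trans ?_
  rw [Finset.sum_mul]
  apply Finset.sum_le_sum
  intro p hp
  have hp' : p.1 + p.2 = n := Finset.HasAntidiagonal.mem_antidiagonal.1 hp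
  rw [norm_mul, ← hp']
  have h3 := hsub p.1 p.2
  have h4 : 0 ≤ ‖x p.1‖ * ‖y p.2‖ := by positivity
  calc ‖x p.1‖ * ‖y p.2‖ * ω (p.1 + p.2)
      ≤ ‖x p.1‖ * ‖y p.2‖ * (ω p.1 * ω p.2) :=
        mul_le_mul_of_nonneg_left h3 h4
    _ = ‖x p.1‖ * ω p.1 * (‖y p.2‖ * ω p.2) := by ring

theorem mul_summable (ω : ℕ → ℝ) (hpos : ∀ n, 0 < ω n) (hsub : ∀ m n, ω (m + n) ≤ ω m * ω n)
    (a b : PowerSeries ℂ) (ha : Summable (fun n : ℕ => ‖PowerSeries.coeff n a‖ * ω n))
    (hb : Summable (fun n : ℕ => ‖PowerSeries.coeff n b‖ * ω n)) :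
    Summable (fun n : ℕ => ‖PowerSeries.coeff n (a * b)‖ * ω n) := by
  have hu0 : ∀ (x : ℕ → ℂ) (n : ℕ), 0 ≤ ‖x n‖ * ω n :=
    fun x n => mul_nonneg (norm_nonneg _) (hpos n).le
  have h2 := hE1_anti (fun n => ‖PowerSeries.coeff n a‖ * ω n) (fun n => ‖PowerSeries.coeff n b‖ * ω n)
    (hu0 fun n => PowerSeries.coeff n a) (hu0 fun n => PowerSeries.coeff n b) ha hb
  refine Summable.of_nonneg_of_le (hu0 fun n => PowerSeries.coeff n (a * b)) (fun n => ?_) h2
  rw [PowerSeries.coeff_mul]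
  exact hE1_le ω hpos hsub (fun n => PowerSeries.coeff n a) (fun n => PowerSeries.coeff n b) n

theorem aeval_summable (ω : ℕ → ℝ) (hpos : ∀ n, 0 < ω n)
    (hsub : ∀ m n, ω (m + n) ≤ ω m * ω n)
    (a : PowerSeries ℂ) (ha : Summable (fun n : ℕ => ‖PowerSeries.coeff n a‖ * ω n))
    (p : Polynomial ℂ) :
    Summable (fun n : ℕ => ‖PowerSeries.coeff n (Polynomial.aeval a p)‖ * ω n) := by
  induction p using Polynomial.induction_on with
  | C r =>
    rw [Polynomial.aeval_C]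
    apply summable_of_ne_finset_zero (s := {0})
    intro n hn
    have hn' : n ≠ 0 := by simpa using hn
    have h0 : PowerSeries.coeff n (algebraMap ℂ (PowerSeries ℂ) r) = 0 := by
      rw [PowerSeries.algebraMap_apply, Algebra.algebraMap_self, RingHom.id_apply,
        PowerSeries.coeff_C, if_neg hn']
    rw [h0, norm_zero, zero_mul]
  | add p q hp hq =>
    rw [map_add]
    refine Summable.of_nonneg_of_le (fun n => mul_nonneg (norm_nonneg _) (hpos n).le)
      (fun n => ?_) (hp.add hq)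
    rw [map_add, ← add_mul]
    exact mul_le_mul_of_nonneg_right (norm_add_le _ _) (hpos n).le
  | monomial n r h =>
    have : Polynomial.aeval a (Polynomial.C r * Polynomial.X ^ (n + 1)) =
        Polynomial.aeval a (Polynomial.C r * Polynomial.X ^ n) * a := by
      rw [pow_succ, ← mul_assoc, map_mul _ _ Polynomial.X, Polynomial.aeval_X]
    rw [this]
    exact mul_summable ω hpos hsub _ _ h ha

end Pool.Agent.Helper58.GW
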