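import Pool.Agent.Helper58.GW.B3
import Pool.Agent.Helper58.GW.C3
import Pool.Agent.Helper58.GW.D1
import Pool.Agent.Helper58.GW.D2
import Pool.Agent.Helper58.GW.D3
import Pool.Agent.Helper58.GW.E1

set_option autoImplicit false

namespace Pool.Agent.Helper58.GW

open PowerSeries

-- E2
theorem Lf_eq_zero (j m : ℕ) (h : (m + 1) * nn j < nn (j + 1)) :
    Lf (j + 1) ((F (j + 1)) ^ (m + 1)) = 0 := by
  rw [key_step, key_int]
  have h0 : ∑ s ∈ Finset.range (2 * nn j), ((nu j s : ℝ) : ℂ) *
      PowerSeries.coeff (nn (j + 1) + s) ((F j) ^ (m + 1)) = 0 := by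
    apply Finset.sum_eq_zero
    intro s _
    rw [F_deg j (m + 1) (nn (j + 1) + s) (by omega), mul_zero]
  rw [h0]
  ring

theorem small_of_le (j m : ℕ) (h : m ≤ j) : (m + 1) * nn j < nn (j + 1) := by
  have h1 := nn_big j
  have h2 := nn_pos j
  have h3 : 2 ^ (j + 2) ≥ 2 := by
    calc 2 ^ (j + 2) ≥ 2 ^ 1 := Nat.pow_le_pow_right (by norm_num) (by omega)
      _ = 2 := by norm_num
  have h4 : (m + 1) * nn j ≤ (j + 1) * nn j := Nat.mul_le_mul_right _ (by omega)
  have h5 : 2 * ((j + 1) * nn j) ≤ 2 ^ (j + 2) * (j + 1) * nn j := by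
    rw [mul_assoc]
    exact Nat.mul_le_mul_right _ h3
  have h6 : 0 < (j + 1) * nn j := Nat.mul_pos (by omega) h2
  omega

theorem partial_eq (j k0 : ℕ) :
    ∑ k ∈ Finset.range (nn (j + 2)), ((lam k : ℝ) : ℂ) * PowerSeries.coeff k (f ^ k0)
      = Lf (j + 1) ((F (j + 1)) ^ k0) := by
  have h2 : 2 * nn (j + 1) ≤ nn (j + 2) := by
    have := nn_two (j + 1)
    have h' : 8 * nn (j + 1) ≤ nn (j + 2) := this
    omega
  unfold Lf
  symm
  rw [← Finset.sum_subset (Finset.range_subset_range.mpr h2)]
  · apply Finset.sum_congr rfl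
    intro k hk
    have hk' : k < nn (j + 1 + 1) := by
      have := Finset.mem_range.mp hk
      have h'' : 2 * nn (j + 1) ≤ nn (j + 1 + 1) := h2
      omega
    rw [L_eq_lam (j + 1) k hk', f_coeff_pow (j + 1) k k0 hk']
  · intro k hk hk'
    have hk1 : k < nn (j + 1 + 1) := Finset.mem_range.mp hk
    have hk2 : 2 * nn (j + 1) ≤ k := by
      by_contra hcon
      exact hk' (Finset.mem_range.mpr (by omega))
    rw [← L_eq_lam (j + 1) k hk1, L_supp (j + 1) k hk2]
    simp

theorem f_pow_summable (m : ℕ) :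
    Summable (fun n : ℕ => ‖PowerSeries.coeff n (f ^ m)‖ * om n) := by
  have h := aeval_summable om om_pos om_submul f f_summable (Polynomial.X ^ m)
  simpa using h

theorem lam_summable (a : PowerSeries ℂ)
    (ha : Summable (fun n : ℕ => ‖PowerSeries.coeff n a‖ * om n)) :
    Summable (fun k : ℕ => ((lam k : ℝ) : ℂ) * PowerSeries.coeff k a) := by
  apply Summable.of_norm_bounded ha
  intro k
  rw [norm_mul, mul_comm]
  apply mul_le_mul_of_nonneg_left _ (norm_nonneg _)
  rw [Complex.norm_real]
  exact lam_bound k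

theorem lam_pow (m : ℕ) :
    ∑' k : ℕ, ((lam k : ℝ) : ℂ) * PowerSeries.coeff k (f ^ (m + 1)) = 0 := by
  have hs := lam_summable (f ^ (m + 1)) (f_pow_summable (m + 1))
  have h1 := hs.hasSum.tendsto_sum_nat
  have hnn : Filter.Tendsto (fun j : ℕ => nn (j + 2)) Filter.atTop Filter.atTop := by
    apply Filter.tendsto_atTop_mono (f := fun j => j) _ Filter.tendsto_id
    intro j
    have := nn_lt (j + 2)
    show j ≤ nn (j + 2)
    omega
  have h2 := h1.comp hnn
  have h3 : Filter.Tendsto (fun j : ℕ => (0 : ℂ)) Filter.atTop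
      (nhds (∑' k : ℕ, ((lam k : ℝ) : ℂ) * PowerSeries.coeff k (f ^ (m + 1)))) := by
    apply Filter.Tendsto.congr' _ h2
    filter_upwards [Filter.eventually_ge_atTop m] with j hj
    simp only [Function.comp]
    rw [partial_eq, Lf_eq_zero j m (small_of_le j m hj)]
  exact tendsto_nhds_unique h3 tendsto_const_nhds

noncomputable def Lam (a : PowerSeries ℂ) : ℂ :=
  ∑' k : ℕ, ((lam k : ℝ) : ℂ) * PowerSeries.coeff k a

theorem Lam_X : Lam (PowerSeries.X) = 1 := by
  unfold Lam
  rw [tsum_eq_single 1]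
  · simp [lam_one, PowerSeries.coeff_X]
  · intro b hb
    simp [PowerSeries.coeff_X, hb]

theorem X_summable : Summable (fun n : ℕ => ‖PowerSeries.coeff n (PowerSeries.X : PowerSeries ℂ)‖ * om n) := by
  apply summable_of_ne_finset_zero (s := {1})
  intro b hb
  have : b ≠ 1 := by simpa using hb
  simp [PowerSeries.coeff_X, this]

theorem main :
    ∃ ω : ℕ → ℝ, (∀ n, 0 < ω n) ∧ ω 0 = 1 ∧ (∀ m n, ω (m + n) ≤ ω m * ω n) ∧
      Filter.Tendsto (fun n : ℕ => (ω n) ^ (1 / (n : ℝ))) Filter.atTop (nhds 0) ∧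
      ∃ f : PowerSeries ℂ,
        Summable (fun n : ℕ => ‖PowerSeries.coeff n f‖ * ω n) ∧
        PowerSeries.coeff 0 f = 0 ∧ PowerSeries.coeff 1 f ≠ 0 ∧
        ∃ g : PowerSeries ℂ,
          Summable (fun n : ℕ => ‖PowerSeries.coeff n g‖ * ω n) ∧
          PowerSeries.coeff 0 g = 0 ∧
          ∃ ε : ℝ, 0 < ε ∧ ∀ p : Polynomial ℂ, p.coeff 0 = 0 →
            ε ≤ ∑' n : ℕ, ‖PowerSeries.coeff n (g - Polynomial.aeval f p)‖ * ω n := by
  refine ⟨om, om_pos, om_zero, om_submul, om_tendsto, f, f_summable, f_zero, ?_,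
    PowerSeries.X, X_summable, ?_, 1, one_pos, ?_⟩
  · rw [f_one]; exact one_ne_zero
  · simp
  · intro p hp
    have hps : Summable (fun n : ℕ =>
        ‖PowerSeries.coeff n (PowerSeries.X - Polynomial.aeval f p)‖ * om n) := by
      have h1 := X_summable
      have h2 := aeval_summable om om_pos om_submul f f_summable p
      apply Summable.of_nonneg_of_le _ _ (h1.add h2)
      · intro n; exact mul_nonneg (norm_nonneg _) (om_pos n).le
      · intro n
        rw [← add_mul, map_sub]
        exact mul_le_mul_of_nonneg_right (norm_sub_le _ _) (om_pos n).le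
    have hLp : Lam (Polynomial.aeval f p) = 0 := by
      unfold Lam
      have hterm : ∀ k : ℕ, ((lam k : ℝ) : ℂ) * PowerSeries.coeff k (Polynomial.aeval f p) =
          ∑ i ∈ Finset.range (p.natDegree + 1),
            p.coeff i * (((lam k : ℝ) : ℂ) * PowerSeries.coeff k (f ^ i)) := by
        intro k
        rw [Polynomial.aeval_eq_sum_range, map_sum, Finset.mul_sum]
        apply Finset.sum_congr rfl
        intro i _
        rw [PowerSeries.coeff_smul]
        ring
      simp_rw [hterm]
      rw [Summable.tsum_finsetSum]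
      · apply Finset.sum_eq_zero
        intro i _
        rw [tsum_mul_left]
        rcases i with _ | i
        · rw [hp, zero_mul]
        · rw [lam_pow, mul_zero]
      · intro i _
        exact (lam_summable _ (f_pow_summable i)).mul_left _
    have hL : Lam (PowerSeries.X - Polynomial.aeval f p) = 1 := by
      have h1 := lam_summable _ X_summable
      have h2 := lam_summable _ (aeval_summable om om_pos om_submul f f_summable p)
      have h3 : Lam (PowerSeries.X - Polynomial.aeval f p) =
          Lam PowerSeries.X - Lam (Polynomial.aeval f p) := by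
        unfold Lam
        rw [← h1.tsum_sub h2]
        apply tsum_congr
        intro k
        rw [map_sub, mul_sub]
      rw [h3, Lam_X, hLp, sub_zero]
    calc (1 : ℝ) = ‖Lam (PowerSeries.X - Polynomial.aeval f p)‖ := by rw [hL, norm_one]
      _ ≤ ∑' n : ℕ, ‖((lam n : ℝ) : ℂ) *
            PowerSeries.coeff n (PowerSeries.X - Polynomial.aeval f p)‖ := by
          apply norm_tsum_le_tsum_norm
          exact (lam_summable _ hps).norm
      _ ≤ ∑' n : ℕ, ‖PowerSeries.coeff n (PowerSeries.X - Polynomial.aeval f p)‖ * om n := by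
          apply Summable.tsum_le_tsum _ (lam_summable _ hps).norm hps
          intro k
          rw [norm_mul, mul_comm]
          apply mul_le_mul_of_nonneg_left _ (norm_nonneg _)
          rw [Complex.norm_real]
          exact lam_bound k

end Pool.Agent.Helper58.GW
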